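import Pool.Agent.Work.MP_db9399_kr_helper23.KR
import Pool.Agent.Work.MP_db9399_kr_helper31.PROM
import Pool.Agent.Work.MP_db9399_kr_helper75.PROM1F
import Pool.Agent.Work.MP_db9399_kr_helper68.FINR
import Pool.Agent.Work.MP_db9399_kr_helper68.KX4
import Pool.Agent.Work.MP_db9399_sx_helper38.Hold

/-!
# MP_db9399: the cluster block KX4, no hypotheses (helper6)
-/

set_option autoImplicit false

namespace Pool.Agent.Work.MP_db9399_fin

universe u

/-- **KX4**. -/
theorem kx4 : MP_db9399_x4.Stmt_KX4.{u} :=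
  MP_db9399_kr.helper68.stmt_KX4
    (MP_db9399_kr.helper23.stmt_KR MP_db9399_sv.helper79.stmt_SSE3
      (MP_db9399_kr_helper31.stmt_PROM MP_db9399_kr.helper75.stmt_PROM1)
      (MP_db9399_kr.helper68.stmt_FINR MP_db9399_sx.helper38.vmix MP_db9399_sl_helper49.FIN))

end Pool.Agent.Work.MP_db9399_fin
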