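import Pool.Agent.Work.MP_db9399_outx.Stmt
import Pool.Agent.Work.MP_db9399_dx_helper26.DECXF
import Pool.Agent.Work.MP_db9399_dx_helper26.Mono
import Pool.Agent.Work.MP_db9399_iv_helper38.Fin0
import Pool.Agent.Work.MP_db9399_xf_helper62.BX3

/-!
# MP_db9399: all regular graphs of large degree, from the blocks (helper6)
-/

set_option autoImplicit false

namespace Pool.Agent.Work.MP_db9399_fin

open Finset Classical
open Pool.Agent.Work.MP_db9399_all (nb)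
open Pool.Agent.Work.MP_db9399_da
open Pool.Agent.Work.MP_db9399_xf
open Pool.Agent.Work.MP_db9399_x4
open Pool.Agent.Work.MP_db9399_oxe (sLam)
open Pool.Agent.Work.MP_db9399_dx (Lnk)
open Pool.Agent.Work.MP_db9399_xc.helper38 (Clx stmt_ATOMS)
open Pool.Agent.Work.MP_db9399_iv_helper38 (Stmt_TCCR)
open Pool.Agent.Work.MP_db9399_iv (V0n InO)
open Pool.Agent.Work.MP_db9399_outx (Stmt_OUTX LkO)

universe u

/-- thresholds for the scales of DECX -/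
noncomputable def tLam (Lam : ℝ) (T : Thr) : Thr where
  π0 := T.π0
  κ0 := T.κ0
  ε0 := T.ε0
  ζ0 := T.ζ0
  θ0 := fun ρ π κ ε ζ => T.θ0 ρ π κ ε ζ / Lam

theorem tLam_pos {Lam : ℝ} {T : Thr} (hL : 0 < Lam) (h : T.Pos) : (tLam Lam T).Pos :=
  ⟨h.π0, h.κ0, h.ε0, h.ζ0, fun ρ π κ ε ζ h1 h2 h3 h4 h5 =>
    div_pos (h.θ0 ρ π κ ε ζ h1 h2 h3 h4 h5) hL⟩

/-- the scale with a larger `θ` -/
noncomputable def uLam (Lam : ℝ) (s : Scl) : Scl := { s with θ := Lam * s.θ }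

theorem adm_uLam {Lam : ℝ} {T : Thr} {s : Scl} (hL : 0 < Lam) (h : Adm (tLam Lam T) s) :
    Adm T (uLam Lam s) :=
  ⟨h.ρ, h.π, h.κ, h.ε, h.ζ, ⟨mul_pos hL h.θ.1, by
    have h1 : s.θ ≤ T.θ0 s.ρ s.π s.κ s.ε s.ζ / Lam := h.θ.2
    rw [le_div_iff₀ hL] at h1
    show Lam * s.θ ≤ T.θ0 s.ρ s.π s.κ s.ε s.ζ
    linarith⟩⟩

theorem s_uLam {Lam : ℝ} (hL : 0 < Lam) (s : Scl) : sLam Lam (uLam Lam s) = s := by
  unfold sLam uLam
  rcases s with ⟨a, b, c, d, e, f⟩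
  simp only [Scl.mk.injEq, true_and]
  field_simp

theorem lko {V : Type u} [Fintype V] {N J : ℕ} {z0 κ a : ℝ} {G : SimpleGraph V} {d : ℕ}
    {Cs : Finset (Finset V)} {X : XD V N J} (hκ : κ ≤ 1 / 8) (h : Lnk z0 κ a G d Cs X) :
    LkO z0 κ G d Cs X where
  hk := h.hk
  vh := h.vh
  mz := h.mz
  v0n := by
    intro x hx q hq
    have h1 := h.v0n x hx q hq
    have hd : (0 : ℝ) ≤ d := Nat.cast_nonneg _
    refine le_trans (le_trans ?_ h1) ?_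
    · nlinarith
    · norm_cast
      refine card_le_card fun v hv => ?_
      simp only [mem_filter] at hv ⊢
      refine ⟨hv.1, ?_, hv.2.2.2⟩
      rintro (h' | h')
      · exact hv.2.1 h'
      · exact hv.2.2.1 h'

/-- `x d^(-c) → 0` -/
theorem ev_small (x c y : ℝ) (hc : 0 < c) (hy : 0 < y) : ∃ d0 : ℕ, ∀ d : ℕ, d0 ≤ d →
    x * (d : ℝ) ^ (-c) ≤ y := by
  have h1 : Filter.Tendsto (fun d : ℕ => x * (d : ℝ) ^ (-c)) Filter.atTop (nhds (x * 0)) :=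
    ((tendsto_rpow_neg_atTop hc).comp tendsto_natCast_atTop_atTop).const_mul x
  rw [mul_zero] at h1
  obtain ⟨d0, h2⟩ := Filter.eventually_atTop.1 (h1.eventually (gt_mem_nhds hy))
  exact ⟨d0, fun d hd => (h2 d hd).le⟩

/-- **All regular graphs of large degree**, from the outside stage and the pieces. -/
theorem tccr (hOUT : Stmt_OUTX.{u}) (hBX : Stmt_BX4.{u}) (hKX : Stmt_KX4.{u}) : Stmt_TCCR.{u} := by
  obtain ⟨πk, θk, hπ1, hπ2, hθk, hθk', hK⟩ := hKX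
  obtain ⟨Mc, κ, Lam, θ1, cg, rr, hMc, hκ, hκ8, hLam, hθ1, hcg, hcg', hrr, hO⟩ := hOUT πk hπ1 hπ2
  obtain ⟨z, hz, z1, z2, z3⟩ : ∃ z : ℝ, 0 < z ∧ z ≤ 1 / 10 ∧ z ≤ 1 / 8 / 4 ∧ z ≤ θk / 4 :=
    ⟨min (1 / 32) (θk / 4), by positivity, (min_le_left _ _).trans (by norm_num),
      (min_le_left _ _).trans (by norm_num), min_le_right _ _⟩
  obtain ⟨θ', η, e, η', dK, hθ', hθ'1, hη, hηz, he, hez, hη', hK2⟩ := hK z hz (by linarith)
  obtain ⟨g, hg, g1, g2⟩ : ∃ g : ℝ, 0 < g ∧ g ≤ 1 / 10 ∧ g ≤ θk / 4 :=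
    ⟨min (1 / 10) (θk / 4), by positivity, min_le_left _ _, min_le_right _ _⟩
  obtain ⟨θ2, hθ2, θ21, θ22⟩ : ∃ θ2 : ℝ, 0 < θ2 ∧ θ2 ≤ θ' ∧ θ2 ≤ θ1 :=
    ⟨min θ' θ1, by positivity, min_le_left _ _, min_le_right _ _⟩
  have hLam0 : 0 < Lam := by linarith
  have hMc0 : 0 < Mc := by linarith
  have hτ : 0 < e / 64 := by positivity
  obtain ⟨M, hM⟩ := MP_db9399_dx.decx.{u} Mc g (1 / 8) z θk θ2 (η / Lam) κ hMc hg g1 g2
    (by norm_num) le_rfl hz z2 z3 hθ2 (by positivity) hκ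
  obtain ⟨T1, hT1, hO2⟩ := hO g z θk η (e / 64) e M hg g1 hz z1 hθk hθk' hη (by linarith) hτ
    (by linarith)
  obtain ⟨T2, hT2, hB⟩ := hBX πk (4 * Mc + 1) g z (e / 64) e η' M hπ1 hπ2 (by linarith) hg g1 hz z1
    hτ (by linarith) hez hη'
  obtain ⟨J, S, ρS, a0, dD, hAdm, hρ, ha0, hX⟩ := hM (tLam Lam (T1.inf T2)) rr
    (tLam_pos hLam0 (Thr.inf_pos hT1 hT2)) hrr
  have hA1 : ∀ s, Adm T1 (uLam Lam (S s)) := fun s => Adm.inl (adm_uLam hLam0 (hAdm s))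
  have hA2 : ∀ s, Adm T2 (uLam Lam (S s)) := fun s => Adm.inr (adm_uLam hLam0 (hAdm s))
  obtain ⟨c0, hc0, hc0', hAt⟩ := stmt_ATOMS.{u} Mc hMc
  obtain ⟨c', hc', c2, c3⟩ : ∃ c' : ℝ, 0 < c' ∧ c' ≤ 1 / 2 ∧ 4 * c' ≤ cg :=
    ⟨min (cg / 4) (1 / 2), by positivity, min_le_right _ _, by
      have := min_le_left (cg / 4) (1 / 2 : ℝ)
      linarith⟩
  obtain ⟨dO, hO3⟩ := hO2 J (fun s => uLam Lam (S s)) ρS c' hA1 hρ hc'
  obtain ⟨dB, hB2⟩ := hB J (fun s => uLam Lam (S s)) c' hA2 hc' c2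
  obtain ⟨n1, hn1⟩ := ev_small (1 / (17 * Mc)) c' (min κ (min a0 (1 / 24))) hc' (by positivity)
  obtain ⟨n2, hn2⟩ := ev_small ((17 * Mc) ^ 3 / c0) c' 1 hc' one_pos
  refine ⟨dK + dO + dB + dD + n1 + n2 + 1, ?_⟩
  intro V _ G d hd hreg
  have hd1 : 1 ≤ d := by omega
  have hdR : (0 : ℝ) < d := by exact_mod_cast (by omega : 0 < d)
  obtain ⟨aC, haC⟩ : ∃ aC : ℝ, aC = 1 / (17 * Mc) * (d : ℝ) ^ (-c') := ⟨_, rfl⟩
  have haC0 : 0 < aC := by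
    rw [haC]
    positivity
  have haC1 := hn1 d (by omega)
  rw [← haC] at haC1
  have haC2 : aC ≤ κ := haC1.trans (min_le_left _ _)
  have haC3 : aC ≤ a0 := haC1.trans ((min_le_right _ _).trans (min_le_left _ _))
  have haC4 : aC ≤ 1 / 24 := haC1.trans ((min_le_right _ _).trans (min_le_right _ _))
  have haC5 : 17 * Mc * aC ≤ (d : ℝ) ^ (-c') := by
    rw [haC]
    refine le_of_eq ?_
    field_simp
  have haC6 : aC ≤ (d : ℝ) ^ (-c') := by nlinarith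
  obtain ⟨Cs, hCs⟩ := hAt G d (1 / 8) aC hd1 hreg haC0 (by linarith) le_rfl
  obtain ⟨N, X, hP1, hP2, hL⟩ := hX G d aC ((d : ℝ) ^ (-c')) (c0 * aC ^ 3) Cs (by omega) hreg haC0
    haC3 haC5 hCs
  have hgC : (d : ℝ) ^ (-cg) ≤ c0 * aC ^ 3 := by
    have h1 := hn2 d (by omega)
    have h2 : (d : ℝ) ^ (-cg) ≤ (d : ℝ) ^ (-(4 * c')) :=
      Real.rpow_le_rpow_of_exponent_le (by exact_mod_cast hd1) (by linarith)
    have h3 : (d : ℝ) ^ (-(4 * c')) = (d : ℝ) ^ (-c') * ((d : ℝ) ^ (-c')) ^ 3 := by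
      rw [← Real.rpow_natCast, ← Real.rpow_mul hdR.le, ← Real.rpow_add hdR]
      congr 1
      push_cast
      ring
    have h4 : (d : ℝ) ^ (-c') ≤ c0 / (17 * Mc) ^ 3 := by
      rw [le_div_iff₀ (by positivity)]
      rw [div_mul_eq_mul_div, div_le_one hc0] at h1
      linarith
    have h5 : c0 * aC ^ 3 = c0 / (17 * Mc) ^ 3 * ((d : ℝ) ^ (-c')) ^ 3 := by
      rw [haC]
      field_simp
    rw [h5]
    refine h2.trans (h3.le.trans ?_)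
    exact mul_le_mul_of_nonneg_right h4 (by positivity)
  have hgC1 : c0 * aC ^ 3 ≤ 1 := by
    have h1 : aC ^ 3 ≤ 1 := pow_le_one₀ haC0.le (by linarith)
    nlinarith [pow_pos haC0 3]
  have e1 : (fun s => sLam Lam (uLam Lam (S s))) = S := by
    funext s
    exact s_uLam hLam0 _
  have e2 : (fun s => ({ sLam Lam (uLam Lam (S s)) with ρ := ρS s } : Scl)) =
      fun s => { S s with ρ := ρS s } := by
    funext s
    rw [s_uLam hLam0]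
  obtain ⟨X', A, t, c, m, -, hPX, hHv, hA, hPre⟩ := hO3 G d X θ2 aC (c0 * aC ^ 3) (1 / 8) Cs
    (by omega) θ22 haC0 haC6 hgC hgC1 le_rfl hCs (by rw [e1]; exact hP1) (by rw [e2]; exact hP2)
    (lko hκ8 hL)
  obtain ⟨t1, c1', U, cR, hPos⟩ := hB2 G d X' A t c m θk θ2 η (by omega) hθk' (by linarith) hηz
    hHv hPX hA hPre
  refine hK2 (4 * Mc + 1) g (e / 64) ((d : ℝ) ^ (-c')) M J (fun s => uLam Lam (S s)) G d X' A t1 c1'
    U cR (by omega) ?_ hA hPos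
  exact MP_db9399_dx.PcX.mono hPX le_rfl le_rfl le_rfl le_rfl θ21 le_rfl le_rfl le_rfl
    (MP_db9399_dx.SLe.refl _)

end Pool.Agent.Work.MP_db9399_fin
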