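import Pool.Agent.Work.MP_db9399_fin_helper6.TCCR
import Pool.Agent.Work.MP_db9399_fin_helper6.Clus
import Pool.Agent.Work.MP_db9399_x4_helper62.BX4F

/-!
# MP_db9399: Stmt_TCCR from OUTX (helper6)
-/

set_option autoImplicit false

namespace Pool.Agent.Work.MP_db9399_fin

universe u

/-- **TCCR** from OUTX. -/
theorem tccr_of (hOUT : MP_db9399_outx.Stmt_OUTX.{u}) : MP_db9399_iv_helper38.Stmt_TCCR.{u} :=
  tccr hOUT MP_db9399_x4.helper62.bx4 kx4

end Pool.Agent.Work.MP_db9399_fin
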