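import Pool.Agent.Work.MP_db9399_fin_helper6.TSplitAll
import Pool.Agent.Work.MP_db9399_ts_helper42.GRP

/-!
# MP_db9399: TSPLIT, no hypotheses (helper6)
-/

set_option autoImplicit false

namespace Pool.Agent.Work.MP_db9399_fin

open Pool.Agent.Work.MP_db9399_ts

universe u

/-- **TSPLIT**. -/
theorem tsplit : MP_db9399_iv.Stmt_TSPLIT.{u} := tsplit_of helper42.stmt_GRP

end Pool.Agent.Work.MP_db9399_fin
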