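import Pool.Agent.Work.MP_db9399_ts_helper6.TSI
import Pool.Agent.Work.MP_db9399_ts_helper15.SWP
import Pool.Agent.Work.MP_db9399_ts_helper15.OFH
import Pool.Agent.Work.MP_db9399_ts_helper26.LGT
import Pool.Agent.Work.MP_db9399_ts_helper32.FHB
import Pool.Agent.Work.MP_db9399_ts_helper32.FPT
import Pool.Agent.Work.MP_db9399_ts_helper39.OSYSF
import Pool.Agent.Work.MP_db9399_ts_helper55.RNDL
import Pool.Agent.Work.MP_db9399_ts_helper55.SID
import Pool.Agent.Work.MP_db9399_ts_helper61.FLB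
import Pool.Agent.Work.MP_db9399_ts_helper75.FRW
import Pool.Agent.Work.MP_db9399_ts_helper95.PRS
import Pool.Agent.Work.MP_db9399_ts_helper95.BAL
import Pool.Agent.Work.MP_db9399_oof_helper31.OOF
import Pool.Agent.Work.MP_db9399_shr_helper31.SHR
import Pool.Agent.Work.MP_db9399_trn_helper95.TRN
import Pool.Agent.Work.MP_db9399_trn_helper79.TRB

/-!
# MP_db9399: TSPLIT from its blocks (helper6)
-/

set_option autoImplicit false

namespace Pool.Agent.Work.MP_db9399_fin

open Pool.Agent.Work.MP_db9399_ts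

universe u

/-- light part -/
theorem all_LGT : Stmt_LGT.{u} :=
  helper26.stmt_LGT helper61.stmt_FLB MP_db9399_ts_helper32.stmt_FPT MP_db9399_ts_helper32.stmt_FHB helper75.stmt_FRW
    stmt_RND

/-- **TSPLIT**, from GRP. -/
theorem tsplit_of (hGRP : Stmt_GRP.{u}) : MP_db9399_iv.Stmt_TSPLIT.{u} :=
  MP_db9399_trn.helper95.stmt_TSPLIT_of (helper6.stmt_TSI helper39.stmt_OSYS
    MP_db9399_oof_helper31.stmt_OOF helper15.stmt_OFH hGRP all_LGT helper95.stmt_PRS
    helper15.stmt_SWP stmt_SID MP_db9399_shr_helper31.stmt_SHR helper95.stmt_BAL)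
    MP_db9399_trn.helper79.stmt_TRB

end Pool.Agent.Work.MP_db9399_fin
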